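import Pool.Agent.Q55.DT.Stm2
import Pool.Agent.Q166.DT.Ord
import Pool.Agent.Q166.DT.LeadP
import Pool.Agent.Q166.DT.Diag
import Pool.Agent.Q166.DT.LocD
import Pool.Agent.Q166.DT.LenK
import Pool.Agent.Q166.DT.LmLow
import Pool.Agent.Q166.DT.UpD
import Pool.Agent.Q224.DT.DComb
import Pool.Agent.Q224.DT.Growth
import Pool.Agent.Q56.DT.Grid
import Pool.Agent.Q56.DT.Mult
import Pool.Agent.Q56.DT.DUp
import Pool.Agent.Q56.DT.GLow
import Pool.Agent.Q225.DT.TOne
import Pool.Agent.Q225.DT.Find
import Pool.Agent.Q91.DT.DimD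

/-!
# Generic determinantal rings are Lech-stable

Let `K` be a field, `1 ≤ t ≤ min (n, m)` and `R_t = K[[X]] / I_t(X)`, where `X` is the generic
`n × m` matrix and `I_t` is the ideal of its `t`-minors. Then the Lech–Mumford constant of `R_t` is
equal to `1`: `e(I) ≤ d! ℓ(R_t / I)` for every ideal `I` whose radical is the maximal ideal.

Proof. Take a monomial order for which the leading (smallest) monomial of every minor is its main
diagonal term. For `I_t ⊆ J` of finite colength in `K[[X]]`, the colength is the number of the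
exponents which are not leading exponents of `J`; the supports of these exponents contain no chain of
length `t` of the grid. The maximal subsets of the grid without a chain of length `t` have
`d = (t - 1) (n + m - t + 1)` elements, they all contain the corner `(0, m - 1)`, and at most
`2 ^ (d - |G|)` of them contain a given subset `G`. Interpolation on the cubes of side `k` in the
directions different from the corner, with cyclic shifts, gives
`dim P / (J ^ k + I_t) ≤ k (k + 1) ^ (d - 1) dim P / J` for all `k ≥ 1`.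
-/

namespace Pool.Agent.Results.MP_829e7b_ag.LechStable

open Pool.Agent.Q55.DT

theorem dim_eq : ∀ (K : Type) [Field K] (n m r : ℕ), 1 ≤ r → r < n → r < m →
    ringKrullDim (DetRing K n m (r + 1)) = (r * (n + m - r) : ℕ) :=
  Pool.Agent.Q91.DT.dimd Pool.Agent.Q166.DT.locd (Pool.Agent.Q56.DT.dup Pool.Agent.Q166.DT.locd)
    Pool.Agent.Q224.DT.growth (Pool.Agent.Q56.DT.glow Pool.Agent.Q166.DT.locd)
    Pool.Agent.Q166.DT.lenk

/-- **Generic determinantal rings are Lech-stable.** -/
theorem result (K : Type) [Field K] (n m t : ℕ) (ht : 1 ≤ t) (htn : t ≤ n) (htm : t ≤ m) :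
    IsLocalRing (DetRing K n m t) ∧ IsNoetherianRing (DetRing K n m t) ∧
      (2 ≤ t → ringKrullDim (DetRing K n m t) = ((t - 1) * (n + m - (t - 1)) : ℕ)) ∧
      lechMumford (DetRing K n m t) = 1 := by
  refine ⟨(Pool.Agent.Q166.DT.locd K n m t ht).2.1, (Pool.Agent.Q166.DT.locd K n m t ht).1, ?_, ?_⟩
  · intro h2
    obtain ⟨r, rfl⟩ : ∃ r, t = r + 1 := ⟨t - 1, by omega⟩
    exact dim_eq K n m r (by omega) (by omega) (by omega)
  · exact Pool.Agent.Q225.DT.find Pool.Agent.Q166.DT.locd
      (Pool.Agent.Q56.DT.glow Pool.Agent.Q166.DT.locd) Pool.Agent.Q166.DT.lenk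
      Pool.Agent.Q166.DT.lmlow Pool.Agent.Q225.DT.tone dim_eq
      (Pool.Agent.Q166.DT.upd Pool.Agent.Q166.DT.ord Pool.Agent.Q166.DT.lead
        Pool.Agent.Q166.DT.diag Pool.Agent.Q224.DT.dcomb Pool.Agent.Q56.DT.grid
        (Pool.Agent.Q56.DT.mult Pool.Agent.Q56.DT.grid) Pool.Agent.Q166.DT.locd)
      K n m t ht htn htm

end Pool.Agent.Results.MP_829e7b_ag.LechStable
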